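import Pool.Agent.H34.FQ.Targets

/-!
# The points over the classes: board `hfq_modules`, row `LOI`
-/

set_option autoImplicit false

open Finset Pool.Agent.H32.RQ Pool.Agent.H34.FQ

namespace Pool.Agent.H2.HFQ

theorem qf_smul' {R : Type} [CommRing R] {s : ℕ} (f : Mon s → R) (a : R) (x : Fin s → R) :
    qf f (fun i => a * x i) = a ^ 2 * qf f x := by
  unfold qf
  rw [Finset.mul_sum]
  exact Finset.sum_congr rfl fun p _ => by ring

theorem qf_dvd {s : ℕ} (f : Mon s → ℤ) (R : ℤ) (x y : Fin s → ℤ) (h : ∀ i, R ∣ x i - y i) :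
    R ∣ qf f x - qf f y := by
  unfold qf
  rw [← Finset.sum_sub_distrib]
  refine Finset.dvd_sum fun p _ => ?_
  have e : f p * (x p.1.1 * x p.1.2) - f p * (y p.1.1 * y p.1.2) =
      f p * x p.1.1 * (x p.1.2 - y p.1.2) + f p * y p.1.2 * (x p.1.1 - y p.1.1) := by ring
  rw [e]
  exact dvd_add (Dvd.dvd.mul_left (h _) _) (Dvd.dvd.mul_left (h _) _)

theorem mv_smul' {R : Type} [CommRing R] {s : ℕ} (T : Matrix (Fin s) (Fin s) ℤ) (a : R)
    (x : Fin s → R) : mv T (fun i => a * x i) = fun i => a * mv T x i := by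
  funext i
  unfold mv
  rw [Finset.mul_sum]
  exact Finset.sum_congr rfl fun p _ => by ring

theorem mv_dvd {s : ℕ} (T : Matrix (Fin s) (Fin s) ℤ) (R : ℤ) (x y : Fin s → ℤ)
    (h : ∀ i, R ∣ x i - y i) (j : Fin s) : R ∣ mv T x j - mv T y j := by
  unfold mv
  rw [← Finset.sum_sub_distrib]
  refine Finset.dvd_sum fun p _ => ?_
  rw [← mul_sub]
  exact Dvd.dvd.mul_left (h _) _

theorem qf_castR {s : ℕ} (f : Mon s → ℤ) (x : Fin s → ℤ) :
    qf (cf ℝ f) (fun i => (x i : ℝ)) = ((qf f x : ℤ) : ℝ) := by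
  unfold qf cf
  push_cast
  rfl

theorem mv_castR {s : ℕ} (T : Matrix (Fin s) (Fin s) ℤ) (x : Fin s → ℤ) (j : Fin s) :
    mv T (fun i => (x i : ℝ)) j = ((mv T x j : ℤ) : ℝ) := by
  unfold mv
  push_cast
  rfl

theorem cf_int {s : ℕ} (f : Mon s → ℤ) : cf ℤ f = f := by
  funext p
  simp [cf]

theorem pt_smul {R : Type} [CommRing R] {n : ℕ} (a c y : R) (v : Fin n → R) :
    (fun i => a * pt c y v i) = pt (a * c) (a * y) (fun i => a * v i) := by
  funext i
  refine Fin.cases ?_ (fun i => ?_) i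
  · rfl
  · refine Fin.cases ?_ (fun i => ?_) i
    · rfl
    · rfl

theorem cv_smul {R : Type} [CommRing R] {n : ℕ} (a c : R) (v : Fin n → R) :
    (fun i => a * cv c v i) = cv (a * c) (fun i => a * v i) := by
  funext i
  refine Fin.cases ?_ (fun i => ?_) i
  · rfl
  · rfl

theorem cv_dvd {n : ℕ} (R a b : ℤ) (v w : Fin n → ℤ) (h : R ∣ a - b) (h2 : ∀ i, R ∣ v i - w i) :
    ∀ i, R ∣ cv a v i - cv b w i := by
  intro i
  refine Fin.cases ?_ (fun i => ?_) i
  · exact h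
  · exact h2 i

theorem pt_dvd {n : ℕ} (R a b c d : ℤ) (v w : Fin n → ℤ) (h : R ∣ a - b) (h1 : R ∣ c - d)
    (h2 : ∀ i, R ∣ v i - w i) :
    ∀ i, R ∣ pt a c v i - pt b d w i := by
  intro i
  refine Fin.cases ?_ (fun i => ?_) i
  · exact h
  · refine Fin.cases ?_ (fun i => ?_) i
    · exact h1
    · exact h2 i

/-- a vector without common prime divisor generates the unit ideal -/
theorem prm_of {s : ℕ} (e : Fin s → ℤ) (h : ∀ p : ℕ, p.Prime → ¬ ∀ i, (p : ℤ) ∣ e i) : Prm e := by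
  by_contra hc
  have h1 : Ideal.span (Set.range e) ≠ ⊤ := by
    intro ht
    apply hc
    have : (1 : ℤ) ∈ Ideal.span (Set.range e) := by rw [ht]; trivial
    rw [Ideal.mem_span_range_iff_exists_fun] at this
    exact this
  obtain ⟨M, hM, hle⟩ := Ideal.exists_le_maximal _ h1
  obtain ⟨g, hg⟩ := (IsPrincipalIdealRing.principal M).principal
  have hg' : M = Ideal.span {g} := hg
  have hg0 : g.natAbs ≠ 1 := by
    intro hg1
    apply hM.ne_top
    rw [hg', Ideal.span_singleton_eq_top]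
    exact Int.isUnit_iff_natAbs_eq.mpr hg1
  obtain ⟨p, hp, hpg⟩ := Nat.exists_prime_and_dvd hg0
  apply h p hp
  intro i
  have h2 : e i ∈ M := hle (Ideal.subset_span ⟨i, rfl⟩)
  rw [hg', Ideal.mem_span_singleton] at h2
  exact (Int.natCast_dvd.mpr hpg).trans h2

theorem gG_homog {n : ℕ} {F : Mon (n + 2) → ℤ} (N : NF F) (f : Mon (n + 2) → ℤ) (l c : ℤ)
    (u : Fin n → ℤ) : gG N f (l * c) (fun i => l * u i) = l ^ 4 * gG N f c u := by
  unfold gG xt
  rw [cf_int]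
  have e1 : qf N.q (cv (l * c) (fun i => l * u i)) = l ^ 2 * qf N.q (cv c u) := by
    rw [← cv_smul, qf_smul']
  rw [e1]
  have e2 : pt (((N.mu : ℤ) : ℤ) * (l * c) ^ 2) (-(l ^ 2 * qf N.q (cv c u)))
      (fun i => ((N.mu : ℤ) : ℤ) * (l * c) * (l * u i)) =
      fun i => l ^ 2 * pt (((N.mu : ℤ) : ℤ) * c ^ 2) (-(qf N.q (cv c u)))
      (fun i => ((N.mu : ℤ) : ℤ) * c * u i) i := by
    rw [pt_smul]
    congr 1
    · ring
    · ring
    · funext i; ring
  simp only [Int.cast_id] at e2 ⊢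
  rw [e2, mv_smul', qf_smul']
  ring

theorem gG_dvd {n : ℕ} {F : Mon (n + 2) → ℤ} (N : NF F) (f : Mon (n + 2) → ℤ) (R c : ℤ)
    (v w : Fin n → ℤ) (h : ∀ i, R ∣ v i - w i) : R ∣ gG N f c v - gG N f c w := by
  unfold gG xt
  rw [cf_int]
  refine qf_dvd f R _ _ fun j => mv_dvd N.T R _ _ (pt_dvd R _ _ _ _ _ _ ?_ ?_ ?_) j
  · simp
  · have := qf_dvd N.q R _ _ (cv_dvd R c c v w (by simp) h)
    have e : -qf N.q (cv c v) - -qf N.q (cv c w) = -(qf N.q (cv c v) - qf N.q (cv c w)) := by ring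
    rw [e]
    exact (dvd_neg).mpr this
  · intro i
    rw [← mul_sub]
    exact Dvd.dvd.mul_left (h i) _

theorem pf_LOI : T_LOI := by
  intro n F N m0 V hV
  obtain ⟨K, hK⟩ := exists_nat_ge (((∑ p, |(N.q p : ℝ)|) + 1) * (1 + V) ^ 2 * (4 * m0))
  refine ⟨K, ?_⟩
  intro m W l X f v h hm hm0 hW hl hX hX4 hlR hv hr hlv
  obtain ⟨⟨u, hu, huv⟩, hlr, hvb, hgh⟩ := hv
  simp only [UU, Finset.mem_filter] at hu
  obtain ⟨-, hRg, hIP⟩ := hu
  have hR : Rm N m W = (N.mu.natAbs * m) ^ 2 * W := rfl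
  have hmu : N.mu ≠ 0 := N.mu0
  have hmu' : 1 ≤ N.mu.natAbs := Int.natAbs_pos.mpr hmu
  have hlp : 0 < l := hl.pos
  -- l is prime to mu m and to W
  have hlmu : ¬ l ∣ N.mu.natAbs * m := by
    intro hd
    apply hlR
    rw [hR]
    exact Dvd.dvd.mul_right (Dvd.dvd.trans hd (dvd_pow_self _ (by norm_num))) _
  have hlW : ¬ l ∣ W := by
    intro hd
    apply hlR
    rw [hR]
    exact Dvd.dvd.mul_left hd _
  set c : ℤ := (m : ℤ) * l with hc
  have hcpos : 0 < c := by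
    rw [hc]; exact mul_pos (by exact_mod_cast hm) (by exact_mod_cast hlp)
  -- the values of q
  have hq1 : (Rm N m W : ℤ) ∣ qf N.q (cv c v) - (l : ℤ) ^ 2 * qf N.q (cv (m : ℤ) u) := by
    rw [← qf_smul', cv_smul]
    refine qf_dvd N.q _ _ _ (cv_dvd _ _ _ _ _ ?_ huv)
    rw [hc, mul_comm (m : ℤ) l]
    simp
  have hmm : (N.mu * m : ℤ) ∣ qf N.q (cv (m : ℤ) u) := by
    rw [← Int.natAbs_dvd_natAbs, Nat.dvd_iff_prime_pow_dvd_dvd]
    intro p k hp hpk
    rcases Nat.eq_zero_or_pos k with hk | hk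
    · subst hk; simp
    have hpR : p ∣ Rm N m W := by
      rw [hR]
      refine Dvd.dvd.mul_right ?_ _
      have h1 : p ∣ N.mu.natAbs * m := by
        have := (dvd_pow_self p hk.ne').trans hpk
        rwa [Int.natAbs_mul, Int.natAbs_natCast] at this
      exact h1.trans (dvd_pow_self _ (by norm_num))
    have := (hIP p hp hpR).1 k (by
      rw [← Int.natCast_pow, Int.natCast_dvd]
      exact hpk)
    rw [← Int.natCast_pow, Int.natCast_dvd] at this
    exact this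
  have hmR : (N.mu * m : ℤ) ^ 2 * W ∣ (Rm N m W : ℤ) := by
    rw [hR]
    push_cast
    rw [mul_pow, mul_pow, sq_abs]
  have hmmR : (N.mu * m : ℤ) ∣ (Rm N m W : ℤ) :=
    ((dvd_pow_self _ (by norm_num)).trans (Dvd.intro _ rfl)).trans hmR
  have hq2 : (N.mu * m : ℤ) ∣ qf N.q (cv c v) := by
    have h1 := (hmmR.trans hq1)
    have h2 : (N.mu * m : ℤ) ∣ (l : ℤ) ^ 2 * qf N.q (cv (m : ℤ) u) := Dvd.dvd.mul_left hmm _
    have := dvd_add h1 h2
    simpa using this
  have hq3 : (l : ℤ) ∣ qf N.q (cv c v) := by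
    have h1 : (l : ℤ) ∣ qf N.q (cv c v) - qf N.q (cv 0 v) :=
      qf_dvd N.q _ _ _ (cv_dvd _ _ _ _ _ (by rw [hc]; simp) (by simp))
    have h2 := N.hr ℤ v
    rw [cf_int, cf_int] at h2
    rw [h2] at h1
    have := dvd_add h1 hlr
    simpa using this
  have hcop : IsCoprime (N.mu * m : ℤ) (l : ℤ) := by
    rw [Int.isCoprime_iff_gcd_eq_one, Int.gcd_eq_natAbs, Int.natAbs_mul, Int.natAbs_natCast,
      Int.natAbs_natCast, ← Nat.coprime_iff_gcd_eq_one, Nat.coprime_comm]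
    exact (Nat.Prime.coprime_iff_not_dvd hl).mpr hlmu
  have hq4 : (N.mu * c : ℤ) ∣ qf N.q (cv c v) := by
    have := hcop.mul_dvd hq2 hq3
    rwa [mul_assoc, ← hc] at this
  obtain ⟨y', hy'⟩ := hq4
  set y : ℤ := -y' with hy
  have hyq : N.mu * c * y + qf N.q (cv c v) = 0 := by rw [hy', hy]; ring
  set e : Fin (n + 2) → ℤ := pt c y v with he
  have he0 : e 0 = c := rfl
  have he1 : e 1 = y := rfl
  have hvt : vt e = v := rfl
  -- sizes
  have hcX : (c : ℝ) ≤ 4 * m0 * X := by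
    rw [hc]
    push_cast
    have h1 : (m : ℝ) ≤ m0 := by exact_mod_cast hm0
    have h2 : (l : ℝ) ≤ 4 * X := by exact_mod_cast hX4
    calc (m : ℝ) * l ≤ m0 * (4 * X) := mul_le_mul h1 h2 (by positivity) (by positivity)
      _ = 4 * m0 * X := by ring
  have hcR : (0 : ℝ) < c := by exact_mod_cast hcpos
  have hcml : (c : ℝ) = (m : ℝ) * l := by rw [hc]; push_cast; rfl
  have hCq : 0 ≤ ∑ p, |(N.q p : ℝ)| := Finset.sum_nonneg fun _ _ => abs_nonneg _
  have hqb : |((qf N.q (cv c v) : ℤ) : ℝ)| ≤ (∑ p, |(N.q p : ℝ)|) * ((1 + V) * c) ^ 2 := by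
    have hcvb : ∀ i, |((cv c v i : ℤ) : ℝ)| ≤ (1 + V) * c := by
      intro i
      refine Fin.cases ?_ (fun i => ?_) i
      · show |((c : ℤ) : ℝ)| ≤ _
        rw [abs_of_pos hcR]
        nlinarith
      · show |((v i : ℤ) : ℝ)| ≤ _
        have := hvb i
        rw [← hcml] at this
        nlinarith
    unfold qf
    push_cast
    refine (Finset.abs_sum_le_sum_abs _ _).trans ?_
    rw [Finset.sum_mul]
    refine Finset.sum_le_sum fun p _ => ?_
    rw [abs_mul, abs_mul, sq]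
    refine mul_le_mul_of_nonneg_left ?_ (abs_nonneg _)
    exact mul_le_mul (hcvb _) (hcvb _) (abs_nonneg _) (by positivity)
  have hyb : |(y : ℝ)| ≤ (∑ p, |(N.q p : ℝ)|) * (1 + V) ^ 2 * c := by
    have h1 : ((qf N.q (cv c v) : ℤ) : ℝ) = -(N.mu * c * y : ℝ) := by
      have : qf N.q (cv c v) = -(N.mu * c * y) := by linarith
      rw [this]; push_cast; ring
    rw [h1, abs_neg, abs_mul, abs_mul, abs_of_pos hcR] at hqb
    have h2 : (1 : ℝ) ≤ |(N.mu : ℝ)| := by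
      have : (1 : ℤ) ≤ |N.mu| := Int.one_le_abs hmu
      exact_mod_cast this
    have h3 : (c : ℝ) * |(y : ℝ)| ≤ |(N.mu : ℝ)| * c * |(y : ℝ)| := by
      have := mul_nonneg hcR.le (abs_nonneg (y : ℝ))
      nlinarith
    have h4 : (c : ℝ) * |(y : ℝ)| ≤ c * ((∑ p, |(N.q p : ℝ)|) * (1 + V) ^ 2 * c) := by
      calc (c : ℝ) * |(y : ℝ)| ≤ (∑ p, |(N.q p : ℝ)|) * ((1 + V) * c) ^ 2 := h3.trans hqb
        _ = c * ((∑ p, |(N.q p : ℝ)|) * (1 + V) ^ 2 * c) := by ring
    exact le_of_mul_le_mul_left h4 hcR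
  have hXK : ((∑ p, |(N.q p : ℝ)|) + 1) * (1 + V) ^ 2 * c ≤ K * X := by
    calc ((∑ p, |(N.q p : ℝ)|) + 1) * (1 + V) ^ 2 * c
        ≤ ((∑ p, |(N.q p : ℝ)|) + 1) * (1 + V) ^ 2 * (4 * m0 * X) :=
          mul_le_mul_of_nonneg_left hcX (by positivity)
      _ = ((∑ p, |(N.q p : ℝ)|) + 1) * (1 + V) ^ 2 * (4 * m0) * X := by ring
      _ ≤ K * X := mul_le_mul_of_nonneg_right hK (by positivity)
  have hV1 : 1 ≤ (1 + V) ^ 2 := by nlinarith
  have hV2 : V ≤ (1 + V) ^ 2 := by nlinarith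
  have hebd : ∀ i, |((e i : ℤ) : ℝ)| ≤ K * X := by
    intro i
    refine Fin.cases ?_ (fun i => ?_) i
    · show |((c : ℤ) : ℝ)| ≤ _
      rw [abs_of_pos hcR]
      refine le_trans ?_ hXK
      have : 1 ≤ ((∑ p, |(N.q p : ℝ)|) + 1) * (1 + V) ^ 2 := by nlinarith
      nlinarith
    · refine Fin.cases ?_ (fun i => ?_) i
      · show |((y : ℤ) : ℝ)| ≤ _
        refine hyb.trans (le_trans ?_ hXK)
        have : 0 ≤ (1 + V) ^ 2 * (c : ℝ) := by positivity
        nlinarith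
      · show |((v i : ℤ) : ℝ)| ≤ _
        have h1 := hvb i
        rw [← hcml] at h1
        refine h1.trans (le_trans ?_ hXK)
        have h2 : V ≤ ((∑ p, |(N.q p : ℝ)|) + 1) * (1 + V) ^ 2 := by nlinarith
        nlinarith
  -- xt
  have hxt : xt N c v = fun i => (N.mu * c) * mv N.T e i := by
    unfold xt
    rw [cf_int, ← mv_smul', pt_smul]
    congr 2
    · simp only [Int.cast_id]; ring
    · linarith
  have hgG : gG N f c v = (N.mu * c) ^ 2 * qf f (mv N.T e) := by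
    unfold gG
    rw [hxt, qf_smul']
  have hRgG : (Rm N m W : ℤ) ∣ gG N f c v := by
    have h1 := gG_dvd N f (Rm N m W : ℤ) c v (fun i => (l : ℤ) * u i) huv
    have h2 : gG N f c (fun i => (l : ℤ) * u i) = (l : ℤ) ^ 4 * gG N f (m : ℤ) u := by
      rw [hc, mul_comm (m : ℤ) l]
      exact gG_homog N f l m u
    rw [h2] at h1
    have h3 : (Rm N m W : ℤ) ∣ (l : ℤ) ^ 4 * gG N f (m : ℤ) u := Dvd.dvd.mul_left hRg _
    have := dvd_add h1 h3
    simpa using this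
  have hWf : (W : ℤ) ∣ qf f (mv N.T e) := by
    have h1 : (N.mu * m : ℤ) ^ 2 * W ∣ (N.mu * m : ℤ) ^ 2 * ((l : ℤ) ^ 2 * qf f (mv N.T e)) := by
      have := hmR.trans hRgG
      rw [hgG, hc] at this
      have e1 : (N.mu * (↑m * ↑l)) ^ 2 * qf f (mv N.T e) =
          (N.mu * m : ℤ) ^ 2 * ((l : ℤ) ^ 2 * qf f (mv N.T e)) := by ring
      rwa [e1] at this
    have h2 : (N.mu * m : ℤ) ^ 2 ≠ 0 := by
      refine pow_ne_zero _ (mul_ne_zero hmu ?_)
      exact_mod_cast (by omega : m ≠ 0)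
    have h3 := (mul_dvd_mul_iff_left h2).mp h1
    have h4 : IsCoprime (W : ℤ) ((l : ℤ) ^ 2) := by
      refine IsCoprime.pow_right ?_
      rw [Int.isCoprime_iff_gcd_eq_one, Int.gcd_natCast_natCast, ← Nat.coprime_iff_gcd_eq_one,
        Nat.coprime_comm]
      exact (Nat.Prime.coprime_iff_not_dvd hl).mpr hlW
    exact h4.dvd_of_dvd_mul_left h3
  -- the size of the value
  have hsz : |((qf f (mv N.T e) : ℤ) : ℝ)| ≤ ((m : ℝ) * l) ^ 2 * h := by
    have hxr : xt N (1 : ℝ) (fun i => (v i : ℝ) / (m * l)) =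
        fun i => ((N.mu : ℝ) / c) * mv N.T (fun i => (e i : ℝ)) i := by
      unfold xt
      rw [← mv_smul']
      have e0 : (fun i => ((e i : ℤ) : ℝ)) = pt (c : ℝ) (y : ℝ) (fun i => (v i : ℝ)) := by
        funext i
        refine Fin.cases ?_ (fun i => ?_) i
        · rfl
        · refine Fin.cases ?_ (fun i => ?_) i
          · rfl
          · rfl
      have e1 : qf (cf ℝ N.q) (cv (1 : ℝ) fun i => (v i : ℝ) / (m * l)) =
          (1 / (c : ℝ)) ^ 2 * ((qf N.q (cv c v) : ℤ) : ℝ) := by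
        rw [← qf_castR, ← qf_smul']
        congr 1
        funext i
        refine Fin.cases ?_ (fun i => ?_) i
        · show (1 : ℝ) = 1 / (c : ℝ) * ((c : ℤ) : ℝ)
          field_simp
        · show (v i : ℝ) / (m * l) = 1 / (c : ℝ) * ((v i : ℤ) : ℝ)
          rw [hcml]; ring
      have e2 : ((qf N.q (cv c v) : ℤ) : ℝ) = -(N.mu * c * y : ℝ) := by
        have : qf N.q (cv c v) = -(N.mu * c * y) := by linarith
        rw [this]; push_cast; ring
      have e3 : (fun j => ((N.mu : ℝ) / c) * ((e j : ℤ) : ℝ)) =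
          pt ((N.mu : ℝ) * 1 ^ 2) (-qf (cf ℝ N.q) (cv (1 : ℝ) fun i => (v i : ℝ) / (m * l)))
            (fun i => (N.mu : ℝ) * 1 * ((v i : ℝ) / (m * l))) := by
        have e4 : (fun j => ((N.mu : ℝ) / c) * ((e j : ℤ) : ℝ)) =
          fun j => ((N.mu : ℝ) / c) * pt (c : ℝ) (y : ℝ) (fun i => (v i : ℝ)) j := by
          funext j
          rw [← e0]
        rw [e4, pt_smul, e1, e2]
        congr 1
        · field_simp
        · field_simp
        · funext i; rw [hcml]; ring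
      rw [e3]
    have hg1 : gG N (cf ℝ f) 1 (fun i => (v i : ℝ) / (m * l)) =
        ((N.mu : ℝ) / c) ^ 2 * ((qf f (mv N.T e) : ℤ) : ℝ) := by
      unfold gG
      rw [hxr, qf_smul', ← qf_castR]
      congr 2
      funext i
      exact mv_castR N.T e i
    rw [hg1, abs_mul, abs_of_nonneg (sq_nonneg _), div_pow, div_mul_eq_mul_div,
      div_le_iff₀ (by positivity)] at hgh
    have h2 : (1 : ℝ) ≤ (N.mu : ℝ) ^ 2 := by
      have : (1 : ℤ) ≤ N.mu ^ 2 := by
        have := Int.one_le_abs hmu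
        nlinarith [sq_abs N.mu]
      exact_mod_cast this
    rw [← hcml]
    calc |((qf f (mv N.T e) : ℤ) : ℝ)| = 1 * |((qf f (mv N.T e) : ℤ) : ℝ)| := (one_mul _).symm
      _ ≤ (N.mu : ℝ) ^ 2 * |((qf f (mv N.T e) : ℤ) : ℝ)| :=
          mul_le_mul_of_nonneg_right h2 (abs_nonneg _)
      _ ≤ h * (c : ℝ) ^ 2 := hgh
      _ = (c : ℝ) ^ 2 * h := by ring
  -- primitivity
  have hprm : Prm e := by
    refine prm_of e fun p hp hpe => ?_
    have hpc : (p : ℤ) ∣ c := hpe 0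
    have hpy : (p : ℤ) ∣ y := hpe 1
    have hpv : ∀ i, (p : ℤ) ∣ v i := fun i => hpe i.succ.succ
    have hpl : p ≠ l := by
      rintro rfl
      exact hlv hpv
    have hpcopl : IsCoprime (p : ℤ) (l : ℤ) := by
      rw [Int.isCoprime_iff_gcd_eq_one, Int.gcd_natCast_natCast, ← Nat.coprime_iff_gcd_eq_one]
      exact (Nat.coprime_primes hp hl).mpr hpl
    have hpm : (p : ℤ) ∣ m := by
      rw [hc] at hpc
      exact hpcopl.dvd_of_dvd_mul_right hpc
    have hpm' : p ∣ m := by exact_mod_cast hpm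
    have hpR : p ∣ Rm N m W := by
      rw [hR]
      exact Dvd.dvd.mul_right ((hpm'.mul_left _).trans (dvd_pow_self _ (by norm_num))) _
    have hpu : ∀ i, (p : ℤ) ∣ u i := by
      intro i
      have h1 : (p : ℤ) ∣ v i - l * u i :=
        Dvd.dvd.trans (by exact_mod_cast hpR) (huv i)
      have h2 : (p : ℤ) ∣ l * u i := by
        have := dvd_sub (hpv i) h1
        simpa using this
      exact hpcopl.dvd_of_dvd_mul_left h2
    apply (hIP p hp hpR).2 hpm hpu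
    intro k hk
    have h1 : (p : ℤ) ^ (k + 1) ∣ qf N.q (cv c v) := by
      have e1 : qf N.q (cv c v) = (N.mu * m) * (-(l : ℤ) * y) := by
        have : qf N.q (cv c v) = -(N.mu * c * y) := by linarith
        rw [this, hc]; ring
      rw [e1, pow_succ]
      exact mul_dvd_mul hk (Dvd.dvd.mul_left hpy _)
    have h2 : (p : ℤ) ^ (k + 1) ∣ (Rm N m W : ℤ) := by
      rcases Nat.eq_zero_or_pos k with hk0 | hk0
      · subst hk0
        rw [zero_add, pow_one]
        exact_mod_cast hpR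
      · refine Dvd.dvd.trans ?_ ((Dvd.intro _ rfl).trans hmR)
        calc (p : ℤ) ^ (k + 1) ∣ (p : ℤ) ^ (k * 2) := pow_dvd_pow _ (by omega)
          _ = ((p : ℤ) ^ k) ^ 2 := by rw [pow_mul]
          _ ∣ (N.mu * m) ^ 2 := pow_dvd_pow_of_dvd hk 2
    have h3 : (p : ℤ) ^ (k + 1) ∣ (l : ℤ) ^ 2 * qf N.q (cv (m : ℤ) u) := by
      have := dvd_sub h1 (h2.trans hq1)
      simpa using this
    exact (hpcopl.pow (m := k + 1) (n := 2)).dvd_of_dvd_mul_left h3
  refine ⟨e, ?_, he0, hvt, hprm, hWf, hsz⟩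
  simp only [EX, Finset.mem_filter]
  refine ⟨?_, ⟨m, l, hm, hm0, hl, hX, hX4, he0⟩, ?_, ?_⟩
  · unfold vb
    rw [Fintype.mem_piFinset]
    intro i
    rw [Finset.mem_Icc, ← abs_le]
    have := hebd i
    exact_mod_cast this
  · rw [he0, he1, hvt]
    exact hyq
  · rw [hvt]
    exact hr

end Pool.Agent.H2.HFQ
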